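import Pool.Agent.helper48.PR.SpecC

/-!
# Project pr, module C1: central commutators have eigenvalues roots of unity
-/

set_option autoImplicit false

namespace Pool.Agent.PR

open Matrix Module

/-- An endomorphism all of whose eigenvalues are roots of `X ^ N - 1`. -/
theorem C1_nil {K V : Type} [Field K] [IsAlgClosed K] [AddCommGroup V] [Module K V]
    [FiniteDimensional K V] (f : End K V) (N : ℕ)
    (h : ∀ μ, f.HasEigenvalue μ → μ ^ N = 1) : IsNilpotent (f ^ N - 1) := by
  have hm : (minpoly K f).Monic := minpoly.monic (Algebra.IsIntegral.isIntegral f)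
  have hs : (minpoly K f).Splits := IsAlgClosed.splits _
  have hprod := hs.eq_prod_roots_of_monic hm
  have hroot : ∀ a ∈ (minpoly K f).roots, a ^ N = 1 := by
    intro a ha
    exact h a (Module.End.hasEigenvalue_iff_isRoot.2 ((Polynomial.mem_roots hm.ne_zero).1 ha))
  have hrad : (Polynomial.X ^ N - 1 : Polynomial K) ∈ (Ideal.span {minpoly K f}).radical := by
    rw [Ideal.radical_eq_sInf, Ideal.mem_sInf]
    rintro J ⟨hJ1, hJ2⟩
    have h1 : minpoly K f ∈ J := hJ1 (Ideal.mem_span_singleton_self _)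
    rw [hprod, hJ2.multiset_prod_mem_iff_exists_mem] at h1
    obtain ⟨p, hp, hpJ⟩ := h1
    obtain ⟨a, ha, rfl⟩ := Multiset.mem_map.1 hp
    have h2 : (Polynomial.X - Polynomial.C a) ∣ (Polynomial.X ^ N - 1 : Polynomial K) := by
      rw [Polynomial.dvd_iff_isRoot]
      simp [hroot a ha]
    exact J.mem_of_dvd h2 hpJ
  obtain ⟨k, hk⟩ := hrad
  obtain ⟨q, hq⟩ := Ideal.mem_span_singleton.1 hk
  refine ⟨k, ?_⟩
  have h3 : Polynomial.aeval f ((Polynomial.X ^ N - 1 : Polynomial K) ^ k) = 0 := by
    rw [hq, map_mul, minpoly.aeval, zero_mul]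
  simpa using h3

theorem C1_eig {K V : Type} [Field K] [AddCommGroup V] [Module K V]
    [FiniteDimensional K V] (x y z x' y' : End K V) (hx : x * x' = 1) (hy : y * y' = 1)
    (hz : z = x * y * x' * y') (hzx : Commute z x) (hzy : Commute z y) (hzx' : Commute z x')
    (hzy' : Commute z y') (μ : K) : μ ^ finrank K (z.eigenspace μ) = 1 := by
  have m1 : ∀ v ∈ z.eigenspace μ, x v ∈ z.eigenspace μ := fun _ hv =>
    Module.End.mapsTo_genEigenspace_of_comm hzx μ 1 hv
  have m2 : ∀ v ∈ z.eigenspace μ, y v ∈ z.eigenspace μ := fun _ hv =>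
    Module.End.mapsTo_genEigenspace_of_comm hzy μ 1 hv
  have m3 : ∀ v ∈ z.eigenspace μ, x' v ∈ z.eigenspace μ := fun _ hv =>
    Module.End.mapsTo_genEigenspace_of_comm hzx' μ 1 hv
  have m4 : ∀ v ∈ z.eigenspace μ, y' v ∈ z.eigenspace μ := fun _ hv =>
    Module.End.mapsTo_genEigenspace_of_comm hzy' μ 1 hv
  have e1 : (x.restrict m1 : End K (z.eigenspace μ)) * x'.restrict m3 = 1 := by
    ext v
    exact congrArg (fun f : End K V => f (v : V)) hx
  have e2 : (y.restrict m2 : End K (z.eigenspace μ)) * y'.restrict m4 = 1 := by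
    ext v
    exact congrArg (fun f : End K V => f (v : V)) hy
  have e3 : (x.restrict m1 : End K (z.eigenspace μ)) * y.restrict m2 * x'.restrict m3 *
      y'.restrict m4 = μ • (1 : End K (z.eigenspace μ)) := by
    ext v
    have h1 : z (v : V) = μ • (v : V) := Module.End.mem_eigenspace_iff.1 v.2
    have h2 : z (v : V) = (x * y * x' * y') (v : V) := congrArg (fun f : End K V => f (v : V)) hz
    exact h2.symm.trans h1
  have e4 := congrArg LinearMap.det e3
  have e7 : LinearMap.det (1 : End K (z.eigenspace μ)) = 1 := map_one _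
  rw [map_mul, map_mul, map_mul, LinearMap.det_smul, e7, mul_one] at e4
  have e5 := congrArg LinearMap.det e1
  have e6 := congrArg LinearMap.det e2
  rw [map_mul, map_one] at e5 e6
  rw [← e4]
  calc _ = (LinearMap.det (x.restrict m1) * LinearMap.det (x'.restrict m3)) *
      (LinearMap.det (y.restrict m2) * LinearMap.det (y'.restrict m4)) := by ring
    _ = 1 := by rw [e5, e6, mul_one]

theorem C1_closed (n : ℕ) (K : Type) [Field K] [IsAlgClosed K]
    (x y z x' y' : Matrix (Fin n) (Fin n) K) (hx : x * x' = 1) (hy : y * y' = 1)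
    (hz : z = x * y * x' * y') (hzx : z * x = x * z) (hzy : z * y = y * z) :
    IsNilpotent (z ^ n.factorial - 1) := by
  have hx2 : x' * x = 1 := mul_eq_one_comm.1 hx
  have hy2 : y' * y = 1 := mul_eq_one_comm.1 hy
  have hzx' : z * x' = x' * z := by
    calc z * x' = x' * x * z * x' := by rw [hx2, one_mul]
      _ = x' * (x * z) * x' := by noncomm_ring
      _ = x' * z * (x * x') := by rw [← hzx]; noncomm_ring
      _ = x' * z := by rw [hx, mul_one]
  have hzy' : z * y' = y' * z := by
    calc z * y' = y' * y * z * y' := by rw [hy2, one_mul]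
      _ = y' * (y * z) * y' := by noncomm_ring
      _ = y' * z * (y * y') := by rw [← hzy]; noncomm_ring
      _ = y' * z := by rw [hy, mul_one]
  let φ : Matrix (Fin n) (Fin n) K ≃ₐ[K] End K (Fin n → K) := Matrix.toLinAlgEquiv'
  have hc : ∀ a b : Matrix (Fin n) (Fin n) K, a * b = b * a → Commute (φ a) (φ b) := by
    intro a b hab
    change φ a * φ b = φ b * φ a
    rw [← map_mul, ← map_mul, hab]
  have hnil : IsNilpotent (φ z ^ n.factorial - 1) := by
    apply C1_nil
    intro μ hμ
    have h1 := C1_eig (φ x) (φ y) (φ z) (φ x') (φ y') (by rw [← map_mul, hx, map_one])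
      (by rw [← map_mul, hy, map_one]) (by rw [← map_mul, ← map_mul, ← map_mul, ← hz])
      (hc _ _ hzx) (hc _ _ hzy) (hc _ _ hzx') (hc _ _ hzy') μ
    have h2 : finrank K ((φ z).eigenspace μ) ≤ n := by
      have := Submodule.finrank_le ((φ z).eigenspace μ)
      simpa using this
    have h3 : 0 < finrank K ((φ z).eigenspace μ) := by
      rw [Module.finrank_pos_iff]
      exact Submodule.nontrivial_iff_ne_bot.2 hμ
    obtain ⟨q, hq⟩ := Nat.dvd_factorial h3 h2
    rw [hq, pow_mul, h1, one_pow]
  have h4 : φ (z ^ n.factorial - 1) = φ z ^ n.factorial - 1 := by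
    rw [map_sub, map_pow, map_one]
  rw [← h4] at hnil
  exact (IsNilpotent.map_iff φ.injective).1 hnil

theorem C1 : C1_stmt := by
  intro n F _ x y z x' y' hx hy hz hzx hzy
  let φ : Matrix (Fin n) (Fin n) F →+* Matrix (Fin n) (Fin n) (AlgebraicClosure F) :=
    (algebraMap F (AlgebraicClosure F)).mapMatrix
  have hinj : Function.Injective φ :=
    Matrix.map_injective (algebraMap F (AlgebraicClosure F)).injective
  rw [← IsNilpotent.map_iff hinj, map_sub, map_pow, map_one]
  exact C1_closed n _ (φ x) (φ y) (φ z) (φ x') (φ y') (by rw [← map_mul, hx, map_one])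
    (by rw [← map_mul, hy, map_one]) (by rw [← map_mul, ← map_mul, ← map_mul, ← hz])
    (by rw [← map_mul, hzx, map_mul]) (by rw [← map_mul, hzy, map_mul])

end Pool.Agent.PR
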