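import Pool.Agent.helper17.PR.SpecN

set_option autoImplicit false

namespace Pool.Agent.PR

open Module

section N_IRR

variable {K V P : Type} [Field K] [AddCommGroup V] [Module K V] [Group P]

theorem N_IRR_inv (ρ : P →* Module.End K V) (g : P) : ρ g * ρ g⁻¹ = 1 := by
  rw [← map_mul, mul_inv_cancel, map_one]

theorem N_IRR_inv' (ρ : P →* Module.End K V) (g : P) : ρ g⁻¹ * ρ g = 1 := by
  rw [← map_mul, inv_mul_cancel, map_one]

/-- the subgroup of the elements acting as scalars -/
def N_IRR_S [Nontrivial V] (ρ : P →* Module.End K V) : Subgroup P where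
  carrier := {g | ∃ a : K, ρ g = a • (1 : Module.End K V)}
  one_mem' := ⟨1, by rw [map_one, one_smul]⟩
  mul_mem' := by
    rintro g h ⟨a, ha⟩ ⟨b, hb⟩
    refine ⟨a * b, ?_⟩
    rw [map_mul, ha, hb, smul_mul_smul_comm, one_mul]
  inv_mem' := by
    rintro g ⟨a, ha⟩
    have h1 := N_IRR_inv ρ g
    rw [ha, smul_mul_assoc, one_mul] at h1
    have ha0 : a ≠ 0 := by
      rintro rfl
      rw [zero_smul] at h1
      exact zero_ne_one h1
    refine ⟨a⁻¹, ?_⟩
    rw [← h1, smul_smul, inv_mul_cancel₀ ha0, one_smul]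

theorem N_IRR_normal [Nontrivial V] (ρ : P →* Module.End K V) : (N_IRR_S ρ).Normal := by
  constructor
  rintro g ⟨a, ha⟩ h
  refine ⟨a, ?_⟩
  rw [map_mul, map_mul, ha, mul_smul_comm, mul_one, smul_mul_assoc, N_IRR_inv]

theorem N_IRR_det [FiniteDimensional K V] (ρ : P →* Module.End K V) (g : P) :
    LinearMap.det (ρ g) ≠ 0 := by
  intro h
  have h1 := congrArg LinearMap.det (N_IRR_inv ρ g)
  rw [map_mul, h, zero_mul, map_one] at h1
  exact zero_ne_one h1

theorem N_IRR_pow (X Y : Module.End K V) (a : K) (h : X * Y = a • (Y * X)) (j : ℕ) :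
    X ^ j * Y = a ^ j • (Y * X ^ j) := by
  induction j with
  | zero => simp
  | succ j ih =>
    calc X ^ (j + 1) * Y = X ^ j * (X * Y) := by rw [pow_succ, mul_assoc]
      _ = a • (X ^ j * Y * X) := by rw [h, mul_smul_comm, mul_assoc]
      _ = a • (a ^ j • (Y * X ^ j) * X) := by rw [ih]
      _ = a ^ (j + 1) • (Y * X ^ (j + 1)) := by
        rw [smul_mul_assoc, smul_smul, mul_assoc, ← pow_succ, pow_succ a, mul_comm a]

end N_IRR

theorem N_IRR (hEXP : N_EXP_stmt) : N_IRR_stmt := by
  intro K V _ _ _ _ _ _ P _ c hc ρ hirr g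
  have hmain := hEXP P c hc (N_IRR_S ρ) (N_IRR_normal ρ) (finrank K V) ?_ g
  · exact hmain
  intro z hz
  have hcomm : ∀ g : P, ρ (z ^ finrank K V) * ρ g = ρ g * ρ (z ^ finrank K V) := by
    intro g
    obtain ⟨a, ha⟩ := hz g
    have h1 : ρ z * ρ g = a • (ρ g * ρ z) := by
      have : z * g = z * g * z⁻¹ * g⁻¹ * (g * z) := by group
      rw [← map_mul, this, map_mul, ha, smul_mul_assoc, one_mul, map_mul]
    have h2 := congrArg LinearMap.det h1
    rw [map_mul, LinearMap.det_smul, map_mul, mul_comm (LinearMap.det (ρ g))] at h2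
    have h3 : a ^ finrank K V = 1 := by
      have hne : LinearMap.det (ρ z) * LinearMap.det (ρ g) ≠ 0 :=
        mul_ne_zero (N_IRR_det ρ z) (N_IRR_det ρ g)
      have h4 : (a ^ finrank K V - 1) * (LinearMap.det (ρ z) * LinearMap.det (ρ g)) = 0 := by
        linear_combination -h2
      rcases mul_eq_zero.1 h4 with h5 | h5
      · exact sub_eq_zero.1 h5
      · exact absurd h5 hne
    rw [map_pow, N_IRR_pow (ρ z) (ρ g) a h1, h3, one_smul]
  obtain ⟨a, ha⟩ := Module.End.exists_eigenvalue (ρ (z ^ finrank K V))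
  have hinv : InvS ρ (Module.End.eigenspace (ρ (z ^ finrank K V)) a) := by
    intro g w hw
    rw [Module.End.mem_eigenspace_iff] at hw ⊢
    have := LinearMap.congr_fun (hcomm g) w
    rw [Module.End.mul_apply, Module.End.mul_apply, hw, map_smul] at this
    exact this
  rcases hirr _ hinv with h | h
  · exact absurd h ha
  · refine ⟨a, ?_⟩
    ext v
    have : v ∈ Module.End.eigenspace (ρ (z ^ finrank K V)) a := by
      rw [h]
      trivial
    rw [Module.End.mem_eigenspace_iff] at this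
    rw [this]
    simp

end Pool.Agent.PR
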