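import Pool.Agent.helper17.PR.SpecN

set_option autoImplicit false

namespace Pool.Agent.PR

open Module

section N_KA

variable {K V : Type} [Field K] [AddCommGroup V] [Module K V]

theorem N_KA_tr {W : Type} [AddCommGroup W] [Module K W] [FiniteDimensional K W]
    (A C A' C' B D : Module.End K W) (h1 : A * A' = 1) (h2 : A' * A = 1) (h3 : C * C' = 1)
    (h4 : C' * C = 1) (hAC : A * C = C * A) (h : D * A + C * B = B * C + A * D + A * C) :
    (finrank K W : K) = 0 := by
  have hAC' : A * C' = C' * A := by
    calc A * C' = C' * C * (A * C') := by rw [h4, one_mul]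
      _ = C' * (C * A) * C' := by simp only [mul_assoc]
      _ = C' * (A * C) * C' := by rw [hAC]
      _ = C' * A * (C * C') := by simp only [mul_assoc]
      _ = C' * A := by rw [h3, mul_one]
  have hA'C : A' * C = C * A' := by
    calc A' * C = A' * C * (A * A') := by rw [h1, mul_one]
      _ = A' * (C * A) * A' := by simp only [mul_assoc]
      _ = A' * (A * C) * A' := by rw [hAC]
      _ = A' * A * (C * A') := by simp only [mul_assoc]
      _ = C * A' := by rw [h2, one_mul]
  have e1 : LinearMap.trace K W (D * A * (C' * A')) = LinearMap.trace K W (D * C') := by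
    congr 1
    calc D * A * (C' * A') = D * (A * C') * A' := by simp only [mul_assoc]
      _ = D * (C' * A) * A' := by rw [hAC']
      _ = D * C' * (A * A') := by simp only [mul_assoc]
      _ = D * C' := by rw [h1, mul_one]
  have e2 : LinearMap.trace K W (A * D * (C' * A')) = LinearMap.trace K W (D * C') := by
    rw [show A * D * (C' * A') = A * (D * C' * A') by simp only [mul_assoc],
      LinearMap.trace_mul_comm,
      show D * C' * A' * A = D * C' * (A' * A) by simp only [mul_assoc], h2, mul_one]
  have e3 : LinearMap.trace K W (C * B * (C' * A')) = LinearMap.trace K W (B * A') := by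
    rw [show C * B * (C' * A') = C * (B * C' * A') by simp only [mul_assoc],
      LinearMap.trace_mul_comm,
      show B * C' * A' * C = B * C' * (A' * C) by simp only [mul_assoc], hA'C,
      show B * C' * (C * A') = B * (C' * C) * A' by simp only [mul_assoc], h4, mul_one]
  have e4 : LinearMap.trace K W (B * C * (C' * A')) = LinearMap.trace K W (B * A') := by
    rw [show B * C * (C' * A') = B * (C * C') * A' by simp only [mul_assoc], h3, mul_one]
  have e5 : LinearMap.trace K W (A * C * (C' * A')) = finrank K W := by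
    rw [show A * C * (C' * A') = A * (C * C') * A' by simp only [mul_assoc], h3, mul_one, h1,
      LinearMap.trace_one]
  have h5 := congrArg (fun T => LinearMap.trace K W (T * (C' * A'))) h
  simp only [add_mul, map_add] at h5
  rw [e1, e2, e3, e4, e5] at h5
  linear_combination -h5

theorem N_KA_inv [FiniteDimensional K V] (f : Module.End K V) (hf : Function.Injective f) :
    ∃ f' : Module.End K V, f * f' = 1 ∧ f' * f = 1 := by
  let e := LinearEquiv.ofInjectiveEndo f hf
  refine ⟨e.symm, ?_, ?_⟩
  · ext v
    exact e.apply_symm_apply v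
  · ext v
    exact e.symm_apply_apply v

theorem N_KA_core [FiniteDimensional K V] [CharZero K] (x y N : Module.End K V)
    (hx : Function.Injective x) (hy : Function.Injective y) (hxN : ∀ v, x (N v) = N (x v))
    (hyN : ∀ v, y (N v) = N (y v)) (hxy : ∀ v, x (y v) = y (x v) + N (y (x v)))
    (hNN : ∀ v, N (N v) = 0) (hN : LinearMap.range N ≠ ⊥) (hk : ∀ v, N v = 0 → ∃ w, N w = v) :
    False := by
  set W := LinearMap.range N with hW
  obtain ⟨σ, hσ⟩ := N.rangeRestrict.exists_rightInverse_of_surjective
    (LinearMap.range_rangeRestrict N)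
  have hσ' : ∀ w : W, N (σ w) = w := fun w => congrArg Subtype.val (LinearMap.congr_fun hσ w)
  have hWk : ∀ w : W, N (w : V) = 0 := by
    rintro ⟨_, v, rfl⟩
    exact hNN v
  have hxW : ∀ w ∈ W, x w ∈ W := by
    rintro _ ⟨v, rfl⟩
    exact ⟨x v, (hxN v).symm⟩
  have hyW : ∀ w ∈ W, y w ∈ W := by
    rintro _ ⟨v, rfl⟩
    exact ⟨y v, (hyN v).symm⟩
  let C : Module.End K W := x.restrict hxW
  let A : Module.End K W := y.restrict hyW
  have hC : ∀ w : W, ((C w : W) : V) = x w := fun w => rfl
  have hA : ∀ w : W, ((A w : W) : V) = y w := fun w => rfl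
  have hBm : ∀ w : W, (y ∘ₗ σ - σ ∘ₗ A) w ∈ W := by
    intro w
    apply hk
    rw [LinearMap.sub_apply, map_sub, LinearMap.comp_apply, LinearMap.comp_apply, hσ', ← hyN, hσ',
      hA, sub_self]
  have hDm : ∀ w : W, (x ∘ₗ σ - σ ∘ₗ C) w ∈ W := by
    intro w
    apply hk
    rw [LinearMap.sub_apply, map_sub, LinearMap.comp_apply, LinearMap.comp_apply, hσ', ← hxN, hσ',
      hC, sub_self]
  let B : Module.End K W := LinearMap.codRestrict W (y ∘ₗ σ - σ ∘ₗ A) hBm
  let D : Module.End K W := LinearMap.codRestrict W (x ∘ₗ σ - σ ∘ₗ C) hDm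
  have hB : ∀ w : W, y (σ w) = σ (A w) + (B w : W) := by
    intro w
    show y (σ w) = σ (A w) + (y (σ w) - σ (A w))
    abel
  have hD : ∀ w : W, x (σ w) = σ (C w) + (D w : W) := by
    intro w
    show x (σ w) = σ (C w) + (x (σ w) - σ (C w))
    abel
  have hCi : Function.Injective C := by
    intro w w' hww
    apply Subtype.ext
    apply hx
    rw [← hC, ← hC, hww]
  have hAi : Function.Injective A := by
    intro w w' hww
    apply Subtype.ext
    apply hy
    rw [← hA, ← hA, hww]
  obtain ⟨C', h3, h4⟩ := N_KA_inv C hCi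
  obtain ⟨A', h1, h2⟩ := N_KA_inv A hAi
  have hAC : A * C = C * A := by
    ext w
    show y (x w) = x (y w)
    rw [hxy, ← hyN, ← hxN, hWk, map_zero, map_zero, add_zero]
  have key : D * A + C * B = B * C + A * D + A * C := by
    ext w
    show ((D (A w) : W) : V) + x (B w) = (B (C w) : W) + y (D w) + y (x w)
    have e1 : x (y (σ w)) = σ (C (A w)) + (D (A w) : W) + x (B w) := by
      rw [hB, map_add, hD]
    have e2 : y (x (σ w)) = σ (A (C w)) + (B (C w) : W) + y (D w) := by
      rw [hD, map_add, hB]
    have e3 : x (y (σ w)) = y (x (σ w)) + y (x w) := by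
      rw [hxy, ← hyN, ← hxN, hσ']
    have e4 : C (A w) = A (C w) := (LinearMap.congr_fun hAC w).symm
    rw [e1, e2, e4] at e3
    have e5 : σ (A (C w)) + (((D (A w) : W) : V) + x (B w)) =
        σ (A (C w)) + ((B (C w) : W) + y (D w) + y (x w)) := by
      rw [← add_assoc, e3]
      abel
    exact add_left_cancel e5
  have h0 := N_KA_tr A C A' C' B D h1 h2 h3 h4 hAC key
  have h00 : finrank K W = 0 := by exact_mod_cast h0
  rw [Submodule.finrank_eq_zero] at h00
  exact hN h00

end N_KA

theorem N_KA : N_KA_stmt := by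
  intro K V _ _ _ _ _ x y x' y' N hx1 hx2 hy1 hy2 hxN hyN hxy S hSx hSy hSN hNN hne hk
  have hxi : Function.Injective x := by
    intro v v' h
    have := congrArg x' h
    rwa [← Module.End.mul_apply, ← Module.End.mul_apply, hx2] at this
  have hyi : Function.Injective y := by
    intro v v' h
    have := congrArg y' h
    rwa [← Module.End.mul_apply, ← Module.End.mul_apply, hy2] at this
  have hSx' : ∀ v ∈ S, x v ∈ S := fun v hv => hSx ⟨v, hv, rfl⟩
  have hSy' : ∀ v ∈ S, y v ∈ S := fun v hv => hSy ⟨v, hv, rfl⟩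
  have hSN' : ∀ v ∈ S, N v ∈ S := fun v hv => hSN ⟨v, hv, rfl⟩
  refine N_KA_core (x.restrict hSx') (y.restrict hSy') (N.restrict hSN') ?_ ?_ ?_ ?_ ?_ ?_ ?_ ?_
  · intro v v' h
    exact Subtype.ext (hxi (congrArg Subtype.val h))
  · intro v v' h
    exact Subtype.ext (hyi (congrArg Subtype.val h))
  · intro v
    exact Subtype.ext (LinearMap.congr_fun hxN v)
  · intro v
    exact Subtype.ext (LinearMap.congr_fun hyN v)
  · intro v
    apply Subtype.ext
    have := LinearMap.congr_fun hxy v
    show x (y v) = y (x v) + N (y (x v))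
    rw [← Module.End.mul_apply, hxy]
    simp [Module.End.mul_apply, LinearMap.add_apply]
  · intro v
    exact Subtype.ext (hNN v v.2)
  · intro h
    apply hne
    rw [eq_bot_iff]
    rintro _ ⟨v, hv, rfl⟩
    have h1 : (N.restrict hSN') ⟨v, hv⟩ ∈ LinearMap.range (N.restrict hSN') := ⟨_, rfl⟩
    rw [h, Submodule.mem_bot] at h1
    exact congrArg Subtype.val h1
  · intro v hv
    have h1 : (v : V) ∈ LinearMap.ker N ⊓ S := ⟨congrArg Subtype.val hv, v.2⟩
    obtain ⟨w, hw, he⟩ := hk h1
    exact ⟨⟨w, hw⟩, Subtype.ext he⟩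

end Pool.Agent.PR
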