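import Pool.Agent.helper17.PR.SpecN
import Pool.Agent.helper33.PR.C1

set_option autoImplicit false

namespace Pool.Agent.PR

open Module

theorem N_KC : N_KC_stmt := by
  intro K V _ _ _ _ _ x y x' y' z hx hx2 hy hy2 hz hzx hzy
  have hzx' : z * x' = x' * z := by
    calc z * x' = x' * x * z * x' := by rw [hx2, one_mul]
      _ = x' * (x * z) * x' := by noncomm_ring
      _ = x' * z * (x * x') := by rw [← hzx]; noncomm_ring
      _ = x' * z := by rw [hx, mul_one]
  have hzy' : z * y' = y' * z := by
    calc z * y' = y' * y * z * y' := by rw [hy2, one_mul]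
      _ = y' * (y * z) * y' := by noncomm_ring
      _ = y' * z * (y * y') := by rw [← hzy]; noncomm_ring
      _ = y' * z := by rw [hy, mul_one]
  apply C1_nil
  intro μ hμ
  have h1 := C1_eig x y z x' y' hx hy hz hzx hzy hzx' hzy' μ
  have h2 : finrank K (z.eigenspace μ) ≤ finrank K V := Submodule.finrank_le _
  have h3 : 0 < finrank K (z.eigenspace μ) := by
    rw [Module.finrank_pos_iff]
    exact Submodule.nontrivial_iff_ne_bot.2 hμ
  obtain ⟨q, hq⟩ := Nat.dvd_factorial h3 h2
  rw [hq, pow_mul, h1, one_pow]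

end Pool.Agent.PR
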