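import Pool.Agent.helper17.PR.SpecN

set_option autoImplicit false

namespace Pool.Agent.PR

open Module

section N_TRI

variable {K V P : Type} [Field K] [AddCommGroup V] [Module K V] [Group P]

/-- the scalars modulo an irreducible quotient -/
theorem N_TRI_quo (hIRR : N_IRR_stmt) [IsAlgClosed K] [FiniteDimensional K V] (c : ℕ)
    (hc : Subgroup.upperCentralSeries P c = ⊤) (ρ : P →* Module.End K V) (X Y : Submodule K V)
    (hX : InvS ρ X) (hY : InvS ρ Y) (hlt : Y < X)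
    (hmax : ∀ M : Submodule K V, InvS ρ M → Y ≤ M → M < X → M = Y) (g : P) :
    ∃ a : K, ∀ v ∈ X, ρ (g ^ (finrank K V).factorial ^ c) v - a • v ∈ Y := by
  let Y' : Submodule K X := Y.comap X.subtype
  have hY' : InvS (resS ρ X hX) Y' := fun g w hw => hY g w hw
  let τ : P →* Module.End K (X ⧸ Y') := quoS (resS ρ X hX) Y' hY'
  have hτ : ∀ (g : P) (v : X), τ g (Y'.mkQ v) = Y'.mkQ ⟨ρ g v, hX g v v.2⟩ := fun g v => rfl
  have hYne : Y' ≠ ⊤ := by
    intro htop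
    apply hlt.not_ge
    intro v hv
    have : (⟨v, hv⟩ : X) ∈ Y' := by
      rw [htop]
      trivial
    exact this
  haveI : Nontrivial (X ⧸ Y') := Submodule.Quotient.nontrivial_iff.2 hYne
  have hirr : ∀ W, InvS τ W → W = ⊥ ∨ W = ⊤ := by
    intro W hW
    let M : Submodule K V := (W.comap Y'.mkQ).map X.subtype
    have hMX : M ≤ X := by
      rintro _ ⟨v, -, rfl⟩
      exact v.2
    have hYM : Y ≤ M := by
      intro v hv
      refine ⟨⟨v, hlt.le hv⟩, ?_, rfl⟩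
      show Y'.mkQ ⟨v, hlt.le hv⟩ ∈ W
      have : Y'.mkQ ⟨v, hlt.le hv⟩ = 0 := by
        rw [Submodule.mkQ_apply, Submodule.Quotient.mk_eq_zero]
        exact hv
      rw [this]
      exact W.zero_mem
    have hM : InvS ρ M := by
      rintro g _ ⟨v, hv, rfl⟩
      refine ⟨⟨ρ g v, hX g v v.2⟩, ?_, rfl⟩
      show Y'.mkQ ⟨ρ g v, hX g v v.2⟩ ∈ W
      rw [← hτ]
      exact hW g _ hv
    rcases hMX.lt_or_eq with h1 | h1
    · left
      have hMY := hmax M hM hYM h1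
      rw [eq_bot_iff]
      intro w hw
      obtain ⟨v, rfl⟩ := Y'.mkQ_surjective w
      have hv : (v : V) ∈ M := ⟨v, hw, rfl⟩
      rw [hMY] at hv
      rw [Submodule.mem_bot, Submodule.mkQ_apply, Submodule.Quotient.mk_eq_zero]
      exact hv
    · right
      rw [eq_top_iff]
      intro w _
      obtain ⟨v, rfl⟩ := Y'.mkQ_surjective w
      have hv : (v : V) ∈ M := by
        rw [h1]
        exact v.2
      obtain ⟨v', hv', he⟩ := hv
      have : v' = v := Subtype.ext he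
      rw [this] at hv'
      exact hv'
  obtain ⟨a, ha⟩ := hIRR K (X ⧸ Y') P c hc τ hirr g
  have hd0 : 0 < finrank K (X ⧸ Y') := finrank_pos
  have hdn : finrank K (X ⧸ Y') ≤ finrank K V :=
    (Submodule.finrank_quotient_le Y').trans (Submodule.finrank_le X)
  obtain ⟨m, hm⟩ := pow_dvd_pow_of_dvd (Nat.dvd_factorial hd0 hdn) c
  refine ⟨a ^ m, fun v hv => ?_⟩
  have h2 : τ (g ^ (finrank K V).factorial ^ c) = a ^ m • (1 : Module.End K (X ⧸ Y')) := by
    rw [hm, pow_mul, map_pow, ha, smul_pow, one_pow]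
  have h3 := LinearMap.congr_fun h2 (Y'.mkQ ⟨v, hv⟩)
  rw [hτ] at h3
  have h4 : Y'.mkQ (⟨ρ (g ^ (finrank K V).factorial ^ c) v, hX _ v hv⟩ - a ^ m • ⟨v, hv⟩) = 0 := by
    rw [map_sub, map_smul, h3]
    simp
  rw [Submodule.mkQ_apply, Submodule.Quotient.mk_eq_zero] at h4
  exact h4

theorem N_TRI_cl (ρ : P →* Module.End K V) (X Y : Submodule K V)
    (hX : InvS ρ X) (hY : InvS ρ Y) (hlt : Y < X) (s : Set P)
    (hs : ∀ g ∈ s, ∃ a : K, ∀ v ∈ X, ρ g v - a • v ∈ Y) (h : P) (hh : h ∈ Subgroup.closure s) :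
    ∃ a : K, ∀ v ∈ X, ρ h v - a • v ∈ Y := by
  induction hh using Subgroup.closure_induction with
  | mem g hg => exact hs g hg
  | one => exact ⟨1, fun v _ => by simp⟩
  | mul g g' _ _ h1 h2 =>
    obtain ⟨a, ha⟩ := h1
    obtain ⟨a', ha'⟩ := h2
    refine ⟨a * a', fun v hv => ?_⟩
    have e1 := hY g _ (ha' v hv)
    have e2 := Y.smul_mem a' (ha v hv)
    have e3 := Y.add_mem e1 e2
    have : ρ (g * g') v - (a * a') • v = ρ g (ρ g' v - a' • v) + a' • (ρ g v - a • v) := by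
      rw [map_mul, Module.End.mul_apply, map_sub, map_smul, smul_sub, smul_smul, mul_comm a' a]
      abel
    rw [this]
    exact e3
  | inv g _ h1 =>
    obtain ⟨a, ha⟩ := h1
    have hinv : ∀ v, ρ g⁻¹ (ρ g v) = v := by
      intro v
      rw [← Module.End.mul_apply, ← map_mul]
      simp
    have ha0 : a ≠ 0 := by
      rintro rfl
      apply hlt.not_ge
      intro v hv
      have e1 := hY g⁻¹ _ (ha v hv)
      rwa [zero_smul, sub_zero, hinv] at e1
    refine ⟨a⁻¹, fun v hv => ?_⟩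
    have e1 := Y.smul_mem (-a⁻¹) (hY g⁻¹ _ (ha v hv))
    have : ρ g⁻¹ v - a⁻¹ • v = (-a⁻¹) • ρ g⁻¹ (ρ g v - a • v) := by
      rw [map_sub, hinv, map_smul, smul_sub, smul_smul, neg_mul, inv_mul_cancel₀ ha0]
      simp only [neg_smul, one_smul, sub_neg_eq_add]
      abel
    rw [this]
    exact e1

end N_TRI

theorem N_TRI (hIRR : N_IRR_stmt) : N_TRI_stmt := by
  intro K V _ _ _ _ _ P _ c hc ρ H hH W U hW hU hWU
  -- minimal X
  obtain ⟨X, ⟨hX, hXU⟩, hXmin⟩ := (wellFounded_lt (α := Submodule K V)).has_min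
    {X : Submodule K V | InvS ρ X ∧ ¬ X ⊓ U ≤ W}
    ⟨⊤, fun _ _ _ => Submodule.mem_top, by
      rw [top_inf_eq]
      exact hWU.not_ge⟩
  have hX0 : ⊥ < X := by
    rw [bot_lt_iff_ne_bot]
    rintro rfl
    exact hXU (by simp)
  obtain ⟨Y, ⟨hY, hYX⟩, hYmax⟩ := (wellFounded_gt (α := Submodule K V)).has_min
    {Y : Submodule K V | InvS ρ Y ∧ Y < X}
    ⟨⊥, fun g w hw => by
      rw [Submodule.mem_bot] at hw ⊢
      rw [hw, map_zero], hX0⟩
  have hYU : Y ⊓ U ≤ W := by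
    by_contra hcon
    exact hXmin Y ⟨hY, hcon⟩ hYX
  have hsc : ∀ h ∈ H, ∃ a : K, ∀ v ∈ X, ρ h v - a • v ∈ Y := by
    intro h hh
    rw [hH] at hh
    refine N_TRI_cl ρ X Y hX hY hYX _ ?_ h hh
    rintro _ ⟨g, rfl⟩
    refine N_TRI_quo hIRR c hc ρ X Y hX hY hYX (fun M hM hYM hMX => ?_) g
    by_contra hne
    exact hYmax M ⟨hM, hMX⟩ (lt_of_le_of_ne hYM (Ne.symm hne))
  obtain ⟨v, hv, hvW⟩ := SetLike.not_le_iff_exists.1 hXU
  refine ⟨v, hv.2, hvW, fun h => ?_⟩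
  obtain ⟨a, ha⟩ := hsc h h.2
  refine ⟨a, hYU ⟨ha v hv.1, ?_⟩⟩
  exact U.sub_mem (hU h v hv.2) (U.smul_mem a hv.2)

end Pool.Agent.PR
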